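import Pool.Agent.H80.AG.Targets9
import Pool.Agent.H66.AAS.Loc

/-!
ABSOLUTE GAP, section 9, row SYS: the measure on the symbolic space.
-/

set_option autoImplicit false

open MeasureTheory Filter Topology Finset
open scoped Nat

namespace Pool.Agent.H41.AG

open Pool.Agent.H24.MR (lam dens FinAddInv)
open Pool.Agent.H24.T2 (Pset rel)
open Pool.Agent.H80.AG
open Pool.Agent.H59.MR (finAddInv_dens fai_mono fai_union_le fai_empty)

lemma fai_exists_le {μ : Set ℕ → ℝ} (h : FinAddInv μ) {ι : Type*} (s : Finset ι)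
    (A : ι → Set ℕ) : μ {n | ∃ i ∈ s, n ∈ A i} ≤ ∑ i ∈ s, μ (A i) := by
  classical
  induction s using Finset.induction_on with
  | empty => simp [fai_empty h]
  | insert a s ha ih =>
    rw [Finset.sum_insert ha]
    have h1 : {n | ∃ i ∈ insert a s, n ∈ A i} = A a ∪ {n | ∃ i ∈ s, n ∈ A i} := by
      ext n
      simp
    rw [h1]
    exact (fai_union_le h _ _).trans (add_le_add_right ih _)

/-- the theorem of Matomaki and Radziwill for all residue classes at once -/
lemma mr_all (W : ℕ) (ε : ℝ) (hW : 0 < W) (hε : 0 < ε) : ∃ h₀ : ℕ, ∀ h, h₀ ≤ h →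
    ∀ (U : Ultrafilter ℕ) (N : ℕ → ℕ), Tendsto N (U : Filter ℕ) atTop →
      dens U N {z | ε * h ≤ |∑ y ∈ Finset.range h, lam (z + W * y)|} ≤ ε := by
  have hWr : (0 : ℝ) < W := by exact_mod_cast hW
  choose h0 hh0 using fun b => Pool.Agent.H66.AAS.mr_unif W b (ε / W) hW (div_pos hε hWr)
  refine ⟨∑ b ∈ range W, h0 b, fun h hh U N hN => ?_⟩
  have hν : FinAddInv (dens U N) := finAddInv_dens hN
  have h1 : {z | ε * h ≤ |∑ y ∈ Finset.range h, lam (z + W * y)|} ⊆
      {z | ∃ b ∈ range W, z ∈ {z | z ≡ b [MOD W] ∧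
        ε / W * h ≤ |∑ y ∈ Finset.range h, lam (z + W * y)|}} := by
    intro z hz
    refine ⟨z % W, mem_range.2 (Nat.mod_lt _ hW), (Nat.mod_modEq z W).symm, le_trans ?_ hz⟩
    refine mul_le_mul_of_nonneg_right ?_ (Nat.cast_nonneg h)
    rw [div_le_iff₀ hWr]
    have : (1 : ℝ) ≤ W := by exact_mod_cast hW
    nlinarith
  refine (fai_mono hν h1).trans ((fai_exists_le hν _ _).trans ?_)
  calc ∑ b ∈ range W, dens U N {z | z ≡ b [MOD W] ∧
        ε / W * h ≤ |∑ y ∈ Finset.range h, lam (z + W * y)|}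
      ≤ ∑ b ∈ range W, ε / W := by
        refine Finset.sum_le_sum fun b hb => hh0 b h (le_trans ?_ hh) U N hN
        exact Finset.single_le_sum (f := h0) (fun _ _ => Nat.zero_le _) hb
    _ = ε := by
        rw [Finset.sum_const, card_range, nsmul_eq_mul]
        field_simp

/-- **Row SYS.** -/
theorem pf_SYS (hA : T_ARR) (hU : T_UNI) (hP : T_PTO) : T_SYS := by
  classical
  intro η hη hη1 hnot
  obtain ⟨k, Q, β, ρ, Mf, hQ, hQe, hβ, hρ, hMf, hJ⟩ := hA η hη hη1 hnot
  choose F mm l hF using hJ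
  haveI : NeZero Q := ⟨hQ.ne'⟩
  let V : Ultrafilter ℕ := hyperfilter ℕ
  have hV : ∀ n : ℕ, ∀ᶠ J in (V : Filter ℕ), n ≤ J := fun n => by
    have h1 : (V : Filter ℕ) ≤ atTop := by
      change ((hyperfilter ℕ : Ultrafilter ℕ) : Filter ℕ) ≤ atTop
      rw [← Nat.cofinite_eq_atTop]
      exact hyperfilter_le_cofinite
    exact h1 (eventually_ge_atTop n)
  -- the scales
  have hm : ∀ w i, ∃ m ∈ (Mf w i : Set ℕ), ∀ᶠ J in (V : Filter ℕ), mm J w i = m := by
    intro w i
    rw [← Ultrafilter.eventually_exists_mem_iff (Mf w i).finite_toSet]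
    filter_upwards [hV w, hV i] with J h1 h2
    exact ⟨_, (hF J w h1 i h2).1, rfl⟩
  choose m hmM hm using hm
  let pt : ∀ J, Fin (F J).n → ℕ → Om Q := fun J a n => ptO Q (l J a) n
  obtain ⟨P, hPp, hPi, hPc⟩ := hU (Om Q) (sh Q) V F pt (fun J a n => (hP Q (l J a)).1 n)
  have hνJ : ∀ J a, FinAddInv (dens ((F J).U a) ((F J).N a)) := fun J a =>
    finAddInv_dens ((F J).hN a)
  have hpt2 : ∀ J a n, (pt J a n).2 = ((n : ZMod Q), l J a) := fun J a n => (hP Q (l J a)).2.1 n
  -- the densities of the labelled families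
  have hlabd : ∀ J w i, (F J).d (fun a => {n | pt J a n ∈ {ω : Om Q | (ω.2.2 (w, i)).1 = true}}) =
      ∑ a, (if (l J a (w, i)).1 = true then (F J).u a else 0) := by
    intro J w i
    unfold Fam.d
    refine Finset.sum_congr rfl fun a _ => ?_
    beta_reduce
    by_cases h : (l J a (w, i)).1 = true
    · rw [if_pos h]
      have h1 : {n | pt J a n ∈ {ω : Om Q | (ω.2.2 (w, i)).1 = true}} = Set.univ := by
        refine Set.eq_univ_of_forall fun n => ?_
        change ((pt J a n).2.2 (w, i)).1 = true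
        rw [hpt2]
        exact h
      rw [h1, (hνJ J a).univ, mul_one]
    · rw [if_neg h]
      have h1 : {n | pt J a n ∈ {ω : Om Q | (ω.2.2 (w, i)).1 = true}} = ∅ := by
        refine Set.eq_empty_of_forall_notMem fun n hn => h ?_
        have hn' : ((pt J a n).2.2 (w, i)).1 = true := hn
        rw [hpt2] at hn'
        exact hn'
      rw [h1, fai_empty (hνJ J a), mul_zero]
  have hlab : ∀ w i, Tendsto
      (fun J => ∑ a, (if (l J a (w, i)).1 = true then (F J).u a else 0)) (V : Filter ℕ)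
      (𝓝 (P.real {ω | (ω.2.2 (w, i)).1 = true})) := by
    intro w i
    refine (hPc _ ((hP Q fun _ => (false, 0, false)).2.2.2.2.1 w i)).congr fun J => ?_
    exact hlabd J w i
  refine ⟨k, Q, inferInstance, β, ρ, m, P, hQe, hβ, hρ, ⟨hPp, hPi,
    fun w i => hMf w i _ (hmM w i), fun w i => ?_, fun w i => ?_, fun W hW ε hε => ?_⟩⟩
  · refine ge_of_tendsto (hlab w i) ?_
    filter_upwards [hV w, hV i] with J h1 h2
    exact (hF J w h1 i h2).2.1
  · -- the relation
    set c : ℝ := (10 * η + 2 / ((i : ℝ) + 1)) / Q * (Pset (Q * w !) (m w i)).card with hc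
    refine le_of_tendsto_of_tendsto (tendsto_finset_sum _ fun p _ =>
      hPc _ ((hP Q fun _ => (false, 0, false)).2.2.2.2.2.1 (k + 1) β p w i))
      ((hlab w i).const_mul c) ?_
    filter_upwards [hV w, hV i, hm w i] with J h1 h2 h3
    have h4 := (hF J w h1 i h2).2.2
    unfold Fam.d
    rw [Finset.sum_comm, Finset.mul_sum]
    refine Finset.sum_le_sum fun a _ => ?_
    beta_reduce
    rw [← Finset.mul_sum]
    by_cases h : (l J a (w, i)).1 = true
    · rw [if_pos h, mul_comm c]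
      refine mul_le_mul_of_nonneg_left ?_ ((F J).u0 a)
      have h5 := h4 a h
      rw [h3] at h5
      refine le_trans (le_of_eq (Finset.sum_congr rfl fun p _ => ?_)) h5
      congr 1
      ext n
      change (((pt J a n).2.2 (w, i)).1 = true ∧ (pt J a n).2.1 = ((pt J a n).2.2 (w, i)).2.1 ∧
        pt J a n ∈ RB Q β p ((pt J a n).2.2 (w, i)).2.2) ↔ _
      rw [hpt2]
      change ((l J a (w, i)).1 = true ∧ (n : ZMod Q) = (l J a (w, i)).2.1 ∧
        ptO Q (l J a) n ∈ RB Q β p (l J a (w, i)).2.2) ↔ _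
      rw [(hP Q (l J a)).2.2.2.1]
      exact ⟨fun h6 => h6.2, fun h6 => ⟨h, h6⟩⟩
    · rw [if_neg h, mul_zero]
      refine le_of_eq ?_
      rw [Finset.sum_eq_zero, mul_zero]
      intro p _
      have h6 : {n | pt J a n ∈ {ω : Om Q | (ω.2.2 (w, i)).1 = true ∧
          ω.2.1 = (ω.2.2 (w, i)).2.1 ∧ ω ∈ RB Q β p (ω.2.2 (w, i)).2.2}} = ∅ := by
        refine Set.eq_empty_of_forall_notMem fun n hn => h ?_
        have hn' : ((pt J a n).2.2 (w, i)).1 = true := hn.1
        rw [hpt2] at hn'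
        exact hn'
      exact (congrArg (dens ((F J).U a) ((F J).N a)) h6).trans (fai_empty (hνJ J a))
  · -- Matomaki-Radziwill
    obtain ⟨h₀, hh₀⟩ := mr_all W ε hW hε
    refine ⟨h₀, fun h hh => ?_⟩
    refine le_of_tendsto (hPc _ ((hP Q fun _ => (false, 0, false)).2.2.2.2.2.2 W h (ε * h))) ?_
    refine Eventually.of_forall fun J => ?_
    unfold Fam.d
    calc ∑ a, (F J).u a * dens ((F J).U a) ((F J).N a) {n | pt J a n ∈ {ω : Om Q |
          ε * h ≤ |∑ y ∈ range h, DD Q ((sh Q)^[W * y] ω)|}}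
        ≤ ∑ a, (F J).u a * ε := by
          refine Finset.sum_le_sum fun a _ => mul_le_mul_of_nonneg_left ?_ ((F J).u0 a)
          refine le_trans (le_of_eq ?_) (hh₀ h hh _ _ ((F J).hN a))
          congr 1
          ext n
          change ε * h ≤ |∑ y ∈ range h, DD Q ((sh Q)^[W * y] (ptO Q (l J a) n))| ↔ _
          simp only [(hP Q (l J a)).2.2.1]
          exact Iff.rfl
      _ = ε := by rw [← Finset.sum_mul, (F J).u1, one_mul]

end Pool.Agent.H41.AG
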