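import Pool.Agent.H80.AG.Targets9

/-!
ABSOLUTE GAP, section 9, row MMX: the minimax principle for a finite family of finite sets.
-/

set_option autoImplicit false

open Finset

namespace Pool.Agent.H41.AG

open Pool.Agent.H80.AG

/-- the indicator of `B` on `M` -/
noncomputable def ind (M B : Finset ℕ) : M → ℝ := fun m => if (m : ℕ) ∈ B then 1 else 0

lemma ind_inj {M B B' : Finset ℕ} (h : B ⊆ M) (h' : B' ⊆ M) (e : ind M B = ind M B') :
    B = B' := by
  ext m
  constructor
  · intro hm
    have h1 := congrFun e ⟨m, h hm⟩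
    unfold ind at h1
    rw [if_pos hm] at h1
    by_contra hm'
    rw [if_neg hm'] at h1
    exact one_ne_zero h1
  · intro hm
    have h1 := congrFun e ⟨m, h' hm⟩
    unfold ind at h1
    rw [if_pos hm] at h1
    by_contra hm'
    rw [if_neg hm'] at h1
    exact zero_ne_one h1

lemma sum_ind {M B : Finset ℕ} (h : B ⊆ M) (f : ℕ → ℝ) :
    ∑ m : M, ind M B m * f m = ∑ m ∈ B, f m := by
  have h1 : ∑ m : M, ind M B m * f m = ∑ m ∈ M, (if m ∈ B then 1 else 0) * f m := by
    rw [← Finset.sum_coe_sort M fun m => (if m ∈ B then (1 : ℝ) else 0) * f m]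
    rfl
  rw [h1, ← Finset.sum_subset h fun m _ hm => by rw [if_neg hm, zero_mul]]
  exact Finset.sum_congr rfl fun m hm => by rw [if_pos hm, one_mul]

/-- **Row MMX.** -/
theorem pf_MMX : T_MMX := by
  classical
  intro M V ρ hM hV hρ hwt
  let s : Finset (M → ℝ) := V.image (ind M)
  let C : Set (M → ℝ) := {v | ∀ m, ρ ≤ v m}
  have hCc : Convex ℝ C := by
    intro v hv w hw a b ha hb hab m
    have h1 := hv m
    have h2 := hw m
    change ρ ≤ a * v m + b * w m
    have h3 : ρ = a * ρ + b * ρ := by rw [← add_mul, hab, one_mul]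
    rw [h3]
    exact add_le_add (mul_le_mul_of_nonneg_left h1 ha) (mul_le_mul_of_nonneg_left h2 hb)
  have hCl : IsClosed C := by
    have h1 : C = ⋂ m, {v : M → ℝ | ρ ≤ v m} := by
      ext v
      simp [C]
    rw [h1]
    exact isClosed_iInter fun m => isClosed_le continuous_const (continuous_apply m)
  by_cases hd : Disjoint (convexHull ℝ (s : Set (M → ℝ))) C
  · exfalso
    obtain ⟨f, a, b, h1, h2, h3⟩ := geometric_hahn_banach_compact_closed
      (convex_convexHull ℝ _) (s.finite_toSet.isCompact_convexHull ℝ) hCc hCl hd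
    -- the coordinates of the functional
    let e : M → M → ℝ := fun m j => if m = j then 1 else 0
    have hf : ∀ v : M → ℝ, f v = ∑ m, v m * f (e m) := by
      intro v
      have h4 := LinearMap.pi_apply_eq_sum_univ f.toLinearMap v
      exact h4
    have hpos : ∀ m, 0 ≤ f (e m) := by
      intro m
      by_contra hneg
      push Not at hneg
      have hb : ∀ x : ℝ, 0 ≤ x → b < f (fun _ => ρ) + x * f (e m) := by
        intro x hx
        have h4 : (fun _ => ρ) + x • e m ∈ C := by
          intro j
          change ρ ≤ ρ + x * (if m = j then 1 else 0)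
          split_ifs
          · linarith
          · linarith
        have h5 := h3 _ h4
        rwa [map_add, map_smul, smul_eq_mul] at h5
      have h6 := hb ((|b| + |f (fun _ => ρ)|) / (-f (e m)))
        (div_nonneg (by positivity) (by linarith))
      have h7 : (|b| + |f (fun _ => ρ)|) / (-f (e m)) * f (e m) =
          -(|b| + |f (fun _ => ρ)|) := by
        rw [div_mul_eq_mul_div, div_neg, mul_div_assoc, div_self hneg.ne, mul_one]
      rw [h7] at h6
      have h8 := neg_abs_le b
      have h9 := le_abs_self (f fun _ => ρ)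
      linarith
    -- extension by zero
    let g : ℕ → ℝ := fun m => if h : m ∈ M then f (e ⟨m, h⟩) else 0
    have hg : ∀ m : M, g m = f (e m) := fun m => dif_pos m.2
    have hfind : ∀ B ∈ V, f (ind M B) = ∑ m ∈ B, g m := by
      intro B hB
      rw [hf, ← sum_ind (hV B hB) g]
      exact Finset.sum_congr rfl fun m _ => by rw [hg]
    have hfρ : f (fun _ => ρ) = ρ * ∑ m ∈ M, g m := by
      rw [hf, ← Finset.mul_sum, ← Finset.sum_coe_sort M g]
      congr 1
      exact Finset.sum_congr rfl fun m _ => (hg m).symm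
    have hg0 : ∀ m ∈ M, 0 ≤ g m := fun m hm => by
      have h4 := hg ⟨m, hm⟩
      change g m = _ at h4
      rw [h4]
      exact hpos _
    have hin : ∀ B ∈ V, f (ind M B) < a := fun B hB =>
      h1 _ (subset_convexHull ℝ _ (Finset.mem_coe.2 (Finset.mem_image_of_mem _ hB)))
    have hρC : b < f (fun _ => ρ) := h3 _ fun _ => le_refl ρ
    -- a point mass gives a member of `V`
    obtain ⟨m0, hm0⟩ := hM
    obtain ⟨B0, hB0, -⟩ := hwt (fun m => if m = m0 then 1 else 0)
      (fun m _ => by split_ifs <;> norm_num) (by simp [hm0])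
    have hS : 0 < ∑ m ∈ M, g m := by
      have h4 : 0 ≤ f (ind M B0) := by
        rw [hfind B0 hB0]
        exact Finset.sum_nonneg fun m hm => hg0 m (hV B0 hB0 hm)
      have h5 := hin B0 hB0
      have h6 : 0 < ρ * ∑ m ∈ M, g m := by
        rw [← hfρ]
        linarith
      exact (mul_pos_iff_of_pos_left hρ).1 h6
    obtain ⟨B, hB, h4⟩ := hwt (fun m => g m / ∑ m ∈ M, g m)
      (fun m hm => div_nonneg (hg0 m hm) hS.le) (by rw [← Finset.sum_div, div_self hS.ne'])
    rw [← Finset.sum_div, lt_div_iff₀ hS, ← hfρ, ← hfind B hB] at h4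
    have h5 := hin B hB
    linarith
  · rw [Set.not_disjoint_iff] at hd
    obtain ⟨v, hv, hvC⟩ := hd
    rw [Finset.mem_convexHull'] at hv
    obtain ⟨w, h1, h2, h3⟩ := hv
    have hinj : Set.InjOn (ind M) (V : Set (Finset ℕ)) := fun B hB B' hB' h =>
      ind_inj (hV B hB) (hV B' hB') h
    refine ⟨fun B => w (ind M B), fun B hB => h1 _ (Finset.mem_image_of_mem _ hB), ?_, ?_⟩
    · rw [← h2, Finset.sum_image hinj]
    · intro m hm
      rw [Finset.sum_image hinj] at h3
      have h4 := congrFun h3 ⟨m, hm⟩
      rw [Finset.sum_apply] at h4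
      have h5 : ∑ B ∈ V, (if m ∈ B then w (ind M B) else 0) = v ⟨m, hm⟩ := by
        rw [← h4]
        refine Finset.sum_congr rfl fun B _ => ?_
        change _ = w (ind M B) * (if m ∈ B then 1 else 0)
        split_ifs <;> simp
      rw [h5]
      exact hvC _

end Pool.Agent.H41.AG
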